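import Mathlib

set_option linter.style.longLine false

/-! Strongly irreducible shifts of finite type: gluing on periodic sets. -/

namespace Pool.Agent.H89.SISFT

variable {d n : ℕ}

/-- all windows of the configuration `x` are allowed patterns -/
def InX (F : Finset (Fin d → ℤ)) (P : Set (F → Fin n)) (x : (Fin d → ℤ) → Fin n) : Prop :=
  ∀ v : Fin d → ℤ, (fun u : F => x (v + u.1)) ∈ P

/-- strong irreducibility with gap `R` -/
def SI (F : Finset (Fin d → ℤ)) (P : Set (F → Fin n)) (R : ℕ) : Prop :=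
  ∀ x y : (Fin d → ℤ) → Fin n, InX F P x → InX F P y → ∀ U V : Finset (Fin d → ℤ),
    (∀ a ∈ U, ∀ b ∈ V, ∃ i : Fin d, (R : ℤ) < |a i - b i|) →
    ∃ z : (Fin d → ℤ) → Fin n, InX F P z ∧ (∀ a ∈ U, z a = x a) ∧ (∀ b ∈ V, z b = y b)

/-- the pattern `p` on `Y` is admissible -/
def Adm (F : Finset (Fin d → ℤ)) (P : Set (F → Fin n)) (Y : Set (Fin d → ℤ))
    (p : (Fin d → ℤ) → Fin n) : Prop :=
  ∃ x, InX F P x ∧ ∀ u ∈ Y, x u = p u

variable {F : Finset (Fin d → ℤ)} {P : Set (F → Fin n)}

theorem InX.shift {x : (Fin d → ℤ) → Fin n} (hx : InX F P x) (w : Fin d → ℤ) :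
    InX F P (fun u => x (u + w)) := by
  intro v
  have := hx (v + w)
  convert this using 2
  rw [add_right_comm]

theorem isClosed_inX : IsClosed {x : (Fin d → ℤ) → Fin n | InX F P x} := by
  have : {x : (Fin d → ℤ) → Fin n | InX F P x} =
      ⋂ v : Fin d → ℤ, (fun x : (Fin d → ℤ) → Fin n => fun u : F => x (v + u.1)) ⁻¹' P := by
    ext x
    simp [InX]
  rw [this]
  refine isClosed_iInter fun v => ?_
  exact (isClosed_discrete P).preimage (by fun_prop)

theorem adm_of_finite {Y : Set (Fin d → ℤ)} {p : (Fin d → ℤ) → Fin n}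
    (h : ∀ C : Finset (Fin d → ℤ), (C : Set (Fin d → ℤ)) ⊆ Y → Adm F P C p) : Adm F P Y p := by
  classical
  let K : Finset (Fin d → ℤ) → Set ((Fin d → ℤ) → Fin n) := fun s =>
    {x | InX F P x ∧ ∀ u ∈ s, u ∈ Y → x u = p u}
  have hcl : ∀ s, IsClosed (K s) := by
    intro s
    have : K s = {x | InX F P x} ∩ ⋂ u ∈ s, ⋂ (_ : u ∈ Y), {x | x u = p u} := by
      ext x
      simp [K]
    rw [this]
    refine isClosed_inX.inter (isClosed_biInter fun u _ => isClosed_iInter fun _ => ?_)
    exact isClosed_eq (continuous_apply u) continuous_const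
  have hne : (⋂ s, K s).Nonempty := by
    refine IsCompact.nonempty_iInter_of_directed_nonempty_isCompact_isClosed K ?_ ?_
      (fun s => (hcl s).isCompact) hcl
    · intro s t
      exact ⟨s ∪ t, fun x hx => ⟨hx.1, fun u hu => hx.2 u (Finset.mem_union_left _ hu)⟩,
        fun x hx => ⟨hx.1, fun u hu => hx.2 u (Finset.mem_union_right _ hu)⟩⟩
    · intro s
      obtain ⟨x, hx, hxp⟩ := h (s.filter fun u => u ∈ Y) (by
        intro u hu
        exact (Finset.mem_filter.1 hu).2)
      exact ⟨x, hx, fun u hu huY => hxp u (by simp [hu, huY])⟩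
  obtain ⟨x, hx⟩ := hne
  rw [Set.mem_iInter] at hx
  exact ⟨x, (hx ∅).1, fun u hu => (hx {u}).2 u (by simp) hu⟩

/-- the finite sets `U` and `V` are far apart -/
def Far (R : ℕ) (U V : Finset (Fin d → ℤ)) : Prop :=
  ∀ a ∈ U, ∀ b ∈ V, ∃ i : Fin d, (R : ℤ) < |a i - b i|

/-- `C` is not a union of two nonempty sets which are far apart -/
def Indec (R : ℕ) (C : Finset (Fin d → ℤ)) : Prop :=
  ∀ C1 C2 : Finset (Fin d → ℤ), (∀ c, c ∈ C ↔ c ∈ C1 ∨ c ∈ C2) → Far R C1 C2 → C1 = ∅ ∨ C2 = ∅

theorem adm_of_indec {R : ℕ} (hSI : SI F P R) (hne : ∃ x, InX F P x) {p : (Fin d → ℤ) → Fin n} :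
    ∀ (m : ℕ) (Y : Finset (Fin d → ℤ)), Y.card ≤ m →
      (∀ C ⊆ Y, Indec R C → Adm F P C p) → Adm F P Y p := by
  classical
  intro m
  induction m with
  | zero =>
    intro Y hY _
    obtain ⟨x, hx⟩ := hne
    refine ⟨x, hx, fun u hu => ?_⟩
    rw [Nat.le_zero, Finset.card_eq_zero] at hY
    simp [hY] at hu
  | succ m ih =>
    intro Y hY h
    by_cases hI : Indec R Y
    · exact h Y subset_rfl hI
    · unfold Indec at hI
      push Not at hI
      obtain ⟨C1, C2, hC, hfar, h1, h2⟩ := hI
      have s1 : C1 ⊆ Y := fun c hc => (hC c).2 (Or.inl hc)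
      have s2 : C2 ⊆ Y := fun c hc => (hC c).2 (Or.inr hc)
      have hdis : Disjoint C1 C2 := by
        rw [Finset.disjoint_left]
        intro c hc1 hc2
        obtain ⟨i, hi⟩ := hfar c hc1 c hc2
        rw [sub_self, abs_zero] at hi
        omega
      have hcard : C1.card + C2.card = Y.card := by
        rw [← Finset.card_union_of_disjoint hdis]
        congr 1
        ext c
        rw [Finset.mem_union, hC]
      have p1 : 0 < C1.card := Finset.card_pos.2 h1
      have p2 : 0 < C2.card := Finset.card_pos.2 h2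
      obtain ⟨x, hx, hxp⟩ := ih C1 (by omega) fun C hCs => h C (hCs.trans s1)
      obtain ⟨y, hy, hyp⟩ := ih C2 (by omega) fun C hCs => h C (hCs.trans s2)
      obtain ⟨z, hz, hzx, hzy⟩ := hSI x y hx hy C1 C2 hfar
      refine ⟨z, hz, fun u hu => ?_⟩
      rcases (hC u).1 hu with h3 | h3
      · rw [hzx u h3, hxp u h3]
      · rw [hzy u h3, hyp u h3]

theorem Indec.between {R : ℕ} {C : Finset (Fin d → ℤ)} (hC : Indec R C) {u u' : Fin d → ℤ}
    (hu : u ∈ C) (hu' : u' ∈ C) (i : Fin d) (t : ℤ) (h1 : u i ≤ t) (h2 : t ≤ u' i) :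
    ∃ c ∈ C, t ≤ c i ∧ c i ≤ t + R := by
  classical
  by_contra hcon
  push Not at hcon
  have := hC (C.filter fun c => c i < t) (C.filter fun c => t + R < c i) (by
    intro c
    simp only [Finset.mem_filter]
    constructor
    · intro hc
      by_cases h : c i < t
      · exact Or.inl ⟨hc, h⟩
      · exact Or.inr ⟨hc, hcon c hc (by omega)⟩
    · rintro (h | h) <;> exact h.1) (by
    intro a ha b hb
    simp only [Finset.mem_filter] at ha hb
    refine ⟨i, ?_⟩
    rw [abs_sub_comm]
    have h3 := le_abs_self (b i - a i)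
    omega)
  rcases this with h | h
  · have h3 : u i = t := by
      by_contra hne
      have : u ∈ C.filter fun c => c i < t := by
        simp only [Finset.mem_filter]
        exact ⟨hu, by omega⟩
      rw [h] at this
      simp at this
    have := hcon u hu (by omega)
    omega
  · have h3 : u' ∈ C.filter fun c => t + R < c i := by
      simp only [Finset.mem_filter]
      exact ⟨hu', hcon u' hu' h2⟩
    rw [h] at h3
    simp at h3

/-- reduction modulo `N` -/
def red (N : ℕ) (u : Fin d → ℤ) : Fin d → ZMod N := fun i => (u i : ZMod N)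

theorem red_add (N : ℕ) (u v : Fin d → ℤ) : red N (u + v) = red N u + red N v := by
  ext i
  simp [red]

theorem red_sub (N : ℕ) (u v : Fin d → ℤ) : red N (u - v) = red N u - red N v := by
  ext i
  simp [red]

theorem red_surj (N : ℕ) : Function.Surjective (red (d := d) N) := by
  intro y
  choose f hf using fun i => ZMod.intCast_surjective (y i)
  exact ⟨f, funext hf⟩

/-- an indecomposable set with few points modulo `N` is injective modulo `N` -/
theorem Indec.inj {R k N : ℕ} (hN : (k + 2) * (R + 1) ≤ N) {C : Finset (Fin d → ℤ)}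
    (hC : Indec R C) {S : Finset (Fin d → ZMod N)} (hS : S.card ≤ k + 1)
    (hCS : ∀ c ∈ C, red N c ∈ S) {u u' : Fin d → ℤ} (hu : u ∈ C) (hu' : u' ∈ C)
    (h : red N u = red N u') : u = u' := by
  classical
  have key : ∀ (u u' : Fin d → ℤ), u ∈ C → u' ∈ C → red N u = red N u' → ∀ i, u' i ≤ u i := by
    intro u u' hu hu' h i
    by_contra hlt
    push Not at hlt
    have h1 : (u i : ZMod N) = (u' i : ZMod N) := congrFun h i
    rw [ZMod.intCast_eq_intCast_iff_dvd_sub] at h1
    have h2 : (N : ℤ) ≤ u' i - u i := Int.le_of_dvd (by omega) h1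
    have h3 : ∀ j : Fin (k + 2), ∃ c ∈ C, u i + (j : ℕ) * (R + 1) ≤ c i ∧
        c i ≤ u i + (j : ℕ) * (R + 1) + R := by
      intro j
      have hj : (j : ℕ) ≤ k + 1 := by omega
      have hj2 : ((j : ℕ) : ℤ) * (R + 1) ≤ (k + 1) * (R + 1) := by
        apply mul_le_mul_of_nonneg_right _ (by positivity)
        exact_mod_cast hj
      have hN' : ((k : ℤ) + 2) * (R + 1) ≤ N := by exact_mod_cast hN
      apply hC.between hu hu' i
      · have : (0 : ℤ) ≤ ((j : ℕ) : ℤ) * (R + 1) := by positivity
        omega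
      · have : ((k : ℤ) + 2) * (R + 1) = (k + 1) * (R + 1) + (R + 1) := by ring
        omega
    choose c hc hc1 hc2 using h3
    have hinj : Function.Injective fun j => red N (c j) := by
      have aux : ∀ j j' : Fin (k + 2), (j : ℕ) < j' → red N (c j) ≠ red N (c j') := by
        intro j j' hlt' heq
        have h4 : (c j i : ZMod N) = (c j' i : ZMod N) := congrFun heq i
        rw [ZMod.intCast_eq_intCast_iff_dvd_sub] at h4
        have h5 : ((j : ℕ) : ℤ) * (R + 1) + (R + 1) ≤ ((j' : ℕ) : ℤ) * (R + 1) := by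
          have : ((j : ℕ) : ℤ) * (R + 1) + (R + 1) = (((j : ℕ) : ℤ) + 1) * (R + 1) := by ring
          rw [this]
          apply mul_le_mul_of_nonneg_right _ (by positivity)
          exact_mod_cast hlt'
        have h6 : 0 < c j' i - c j i := by
          have := hc1 j'
          have := hc2 j
          omega
        have h7 : (N : ℤ) ≤ c j' i - c j i := Int.le_of_dvd h6 h4
        have h8 : ((j' : ℕ) : ℤ) * (R + 1) ≤ (k + 1) * (R + 1) := by
          apply mul_le_mul_of_nonneg_right _ (by positivity)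
          have : (j' : ℕ) ≤ k + 1 := by omega
          exact_mod_cast this
        have h9 : (0 : ℤ) ≤ ((j : ℕ) : ℤ) * (R + 1) := by positivity
        have hN' : ((k : ℤ) + 2) * (R + 1) ≤ N := by exact_mod_cast hN
        have h10 : ((k : ℤ) + 2) * (R + 1) = (k + 1) * (R + 1) + (R + 1) := by ring
        have := hc1 j
        have := hc2 j'
        omega
      intro j j' heq
      by_contra hne
      rcases lt_or_gt_of_ne (fun h => hne (Fin.ext h) : (j : ℕ) ≠ j') with h4 | h4
      · exact aux j j' h4 heq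
      · exact aux j' j h4 heq.symm
    have h4 : (Finset.univ.image fun j => red N (c j)).card = k + 2 := by
      rw [Finset.card_image_of_injective _ hinj, Finset.card_univ, Fintype.card_fin]
    have h5 : (Finset.univ.image fun j => red N (c j)) ⊆ S := by
      intro s hs
      simp only [Finset.mem_image, Finset.mem_univ, true_and] at hs
      obtain ⟨j, rfl⟩ := hs
      exact hCS _ (hc j)
    have h6 := Finset.card_le_card h5
    omega
  funext i
  exact le_antisymm (key u' u hu' hu h.symm i) (key u u' hu hu' h i)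

/-- the pattern `h` on the set of all points which are in `S` modulo `N` is admissible -/
def Hf (F : Finset (Fin d → ℤ)) (P : Set (F → Fin n)) (N : ℕ) (S : Finset (Fin d → ZMod N))
    (h : (Fin d → ZMod N) → Fin n) : Prop :=
  Adm F P {u | red N u ∈ S} (fun u => h (red N u))

theorem Hf.congr {N : ℕ} {S : Finset (Fin d → ZMod N)} {h h' : (Fin d → ZMod N) → Fin n}
    (hh : Hf F P N S h) (e : ∀ s ∈ S, h s = h' s) : Hf F P N S h' := by
  obtain ⟨x, hx, hxp⟩ := hh
  exact ⟨x, hx, fun u hu => (hxp u hu).trans (e _ hu)⟩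

theorem Hf.mono {N : ℕ} {S S' : Finset (Fin d → ZMod N)} {h : (Fin d → ZMod N) → Fin n}
    (hh : Hf F P N S h) (e : S' ⊆ S) : Hf F P N S' h := by
  obtain ⟨x, hx, hxp⟩ := hh
  exact ⟨x, hx, fun u hu => hxp u (e hu)⟩

/-- extension by one more point -/
theorem Hf.extend {R k N : ℕ} (hSI : SI F P R) (hne : ∃ x, InX F P x)
    (hN : (k + 2) * (R + 1) ≤ N) {S : Finset (Fin d → ZMod N)} (hS : S.card ≤ k)
    {h : (Fin d → ZMod N) → Fin n} (hh : Hf F P N S h) (y : Fin d → ZMod N)
    [DecidableEq (Fin d → ZMod N)] :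
    ∃ a, Hf F P N (insert y S) (Function.update h y a) := by
  by_cases hy : y ∈ S
  · refine ⟨h y, ?_⟩
    rw [Function.update_eq_self, Finset.insert_eq_of_mem hy]
    exact hh
  obtain ⟨x, hx, hxp⟩ := hh
  obtain ⟨yt, hyt⟩ := red_surj N y
  refine ⟨x yt, adm_of_finite fun Y hY => ?_⟩
  refine adm_of_indec hSI hne Y.card Y le_rfl fun C hCY hC => ?_
  have hCS : ∀ c ∈ C, red N c ∈ insert y S := fun c hc => hY (hCY hc)
  by_cases hc : ∃ c ∈ C, red N c = y
  · obtain ⟨c, hcC, hcy⟩ := hc
    refine ⟨fun u => x (u + (yt - c)), hx.shift _, fun u hu => ?_⟩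
    have hu : u ∈ C := hu
    by_cases huy : red N u = y
    · have : u = c := hC.inj hN (k := k) (S := insert y S)
        ((Finset.card_insert_le _ _).trans (by omega)) hCS hu hcC (huy.trans hcy.symm)
      subst this
      simp only [huy, Function.update_self, add_sub_cancel]
    · have h1 : red N u ∈ S := (Finset.mem_insert.1 (hCS u hu)).resolve_left huy
      have h2 : red N (u + (yt - c)) = red N u := by
        rw [red_add, red_sub, hyt, hcy, sub_self, add_zero]
      have h3 := hxp (u + (yt - c)) (by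
        show red N (u + (yt - c)) ∈ S
        rw [h2]; exact h1)
      simp only [h2] at h3
      simp only [h3, Function.update_of_ne huy]
  · push Not at hc
    refine ⟨x, hx, fun u hu => ?_⟩
    have hu : u ∈ C := hu
    have huy := hc u hu
    have h1 : red N u ∈ S := (Finset.mem_insert.1 (hCS u hu)).resolve_left huy
    rw [hxp u h1]
    simp only [Function.update_of_ne huy]

/-- a box pattern gives admissible periodic patterns -/
theorem Hf.of_box {R N : ℕ} (hSI : SI F P R) {x : (Fin d → ℤ) → Fin n} (hx : InX F P x)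
    {g : (Fin d → ZMod N) → Fin n} {S : Finset (Fin d → ZMod N)} {L : ℕ} (hL : L + R ≤ N)
    (hg : ∀ u : Fin d → ℤ, (∀ i, 0 ≤ u i ∧ u i < L) → g (red N u) = x u)
    (hS : ∀ s ∈ S, ∃ u : Fin d → ℤ, (∀ i, 0 ≤ u i ∧ u i < L) ∧ red N u = s) :
    Hf F P N S g := by
  classical
  refine adm_of_finite fun Y hY => ?_
  refine adm_of_indec hSI ⟨x, hx⟩ Y.card Y le_rfl fun C hCY hC => ?_
  rcases C.eq_empty_or_nonempty with rfl | ⟨c0, hc0⟩
  · exact ⟨x, hx, fun u hu => absurd hu (by simp)⟩
  have hb : ∀ c ∈ C, ∃ b : Fin d → ℤ, (∀ i, 0 ≤ b i ∧ b i < L) ∧ red N b = red N c :=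
    fun c hc => hS _ (hY (hCY hc))
  obtain ⟨b0, hb0, hr0⟩ := hb c0 hc0
  have hdiv : ∀ u v : Fin d → ℤ, red N u = red N v → ∀ i, (N : ℤ) ∣ v i - u i := by
    intro u v h i
    have h1 : (u i : ZMod N) = (v i : ZMod N) := congrFun h i
    rwa [ZMod.intCast_eq_intCast_iff_dvd_sub] at h1
  have hall : ∀ c ∈ C, ∀ i, 0 ≤ c i - (c0 i - b0 i) ∧ c i - (c0 i - b0 i) < L := by
    rcases hC (C.filter fun c => ∀ i, 0 ≤ c i - (c0 i - b0 i) ∧ c i - (c0 i - b0 i) < L)
      (C.filter fun c => ¬ ∀ i, 0 ≤ c i - (c0 i - b0 i) ∧ c i - (c0 i - b0 i) < L) (by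
        intro c
        simp only [Finset.mem_filter]
        tauto) (by
        intro a ha b hb'
        rw [Finset.mem_filter] at ha hb'
        obtain ⟨b1, hb1, hr1⟩ := hb b hb'.1
        have h1 : ∃ i, b i - b1 i ≠ c0 i - b0 i := by
          by_contra hcon
          push Not at hcon
          apply hb'.2
          intro i
          rw [← hcon i]
          have := hb1 i
          omega
        obtain ⟨i, hi⟩ := h1
        refine ⟨i, ?_⟩
        have h2 := hdiv b1 b hr1 i
        have h3 := hdiv b0 c0 hr0 i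
        have h4 : (N : ℤ) ∣ (b i - b1 i) - (c0 i - b0 i) := dvd_sub h2 h3
        have h5 : (N : ℤ) ≤ |(b i - b1 i) - (c0 i - b0 i)| :=
          Int.le_of_dvd (abs_pos.2 (sub_ne_zero.2 hi)) ((dvd_abs _ _).2 h4)
        have h6 := ha.2 i
        have h7 := hb1 i
        have h8 : (L : ℤ) + R ≤ N := by exact_mod_cast hL
        rcases le_abs.1 h5 with h9 | h9
        · rw [lt_abs]
          right
          omega
        · rw [lt_abs]
          left
          omega) with h | h
    · have : c0 ∈ C.filter fun c => ∀ i, 0 ≤ c i - (c0 i - b0 i) ∧ c i - (c0 i - b0 i) < L := by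
        rw [Finset.mem_filter]
        refine ⟨hc0, fun i => ?_⟩
        have := hb0 i
        omega
      rw [h] at this
      simp at this
    · intro c hc
      by_contra hcon
      have : c ∈ C.filter fun c => ¬ ∀ i, 0 ≤ c i - (c0 i - b0 i) ∧ c i - (c0 i - b0 i) < L := by
        rw [Finset.mem_filter]
        exact ⟨hc, hcon⟩
      rw [h] at this
      simp at this
  refine ⟨fun u => x (u + (b0 - c0)), hx.shift _, fun u hu => ?_⟩
  have h1 : red N (u + (b0 - c0)) = red N u := by
    rw [red_add, red_sub, hr0, sub_self, add_zero]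
  have h2 := hg (u + (b0 - c0)) (by
    intro i
    have := hall u hu i
    simp only [Pi.add_apply, Pi.sub_apply]
    omega)
  rw [h1] at h2
  exact h2.symm

end Pool.Agent.H89.SISFT
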