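import Mathlib

set_option linter.style.longLine false

/-! Near unanimity operations and partial solutions (after Baker and Pixley). -/

namespace Pool.Agent.H89.SISFT

variable {A V : Type*}

/-- near unanimity operation of arity `m`: it returns the value taken by all arguments with at most
one exception -/
def IsNU (m : ℕ) (f : (Fin m → A) → A) : Prop :=
  ∀ (a b : A) (i : Fin m), f (Function.update (fun _ => a) i b) = a

theorem IsNU.idem {m : ℕ} {f : (Fin m → A) → A} (hf : IsNU m f) (hm : 0 < m) (a : A) :
    f (fun _ => a) = a := by
  have := hf a a ⟨0, hm⟩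
  rwa [Function.update_eq_self_iff.2 rfl] at this

/-- the operation of larger arity with dummy arguments -/
def extF {m K : ℕ} (h : m ≤ K) (f : (Fin m → A) → A) : (Fin K → A) → A :=
  fun z => f fun i => z (Fin.castLE h i)

theorem IsNU.extF {m K : ℕ} {f : (Fin m → A) → A} (hf : IsNU m f) (hm : 0 < m) (h : m ≤ K) :
    IsNU K (extF h f) := by
  intro a b j
  unfold SISFT.extF
  by_cases hj : (j : ℕ) < m
  · have : (fun i : Fin m => Function.update (fun _ => a) j b (Fin.castLE h i)) =
        Function.update (fun _ => a) ⟨j, hj⟩ b := by
      funext i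
      by_cases hi : i = ⟨j, hj⟩
      · subst hi
        simp
      · have : Fin.castLE h i ≠ j := by
          intro h2
          apply hi
          exact Fin.ext (show (i : ℕ) = (j : ℕ) from congrArg Fin.val h2)
        rw [Function.update_of_ne this, Function.update_of_ne hi]
    rw [this]
    exact hf a b _
  · have : (fun i : Fin m => Function.update (fun _ => a) j b (Fin.castLE h i)) = fun _ => a := by
      funext i
      rw [Function.update_of_ne]
      intro h2
      apply hj
      rw [← h2]
      exact i.2
    rw [this]
    exact hf.idem hm a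

variable [DecidableEq V]

/-- all restrictions of `g` to at most `k` points of `W` are in the family `H` -/
def Loc (H : Finset V → (V → A) → Prop) (k : ℕ) (W : Finset V) (g : V → A) : Prop :=
  ∀ S ⊆ W, S.card ≤ k → H S g

theorem nu_step {H : Finset V → (V → A) → Prop} {k : ℕ} {f : (Fin (k + 1) → A) → A}
    (hf : IsNU (k + 1) f)
    (congr : ∀ S h h', H S h → (∀ s ∈ S, h s = h' s) → H S h')
    (ext : ∀ S h, S.card ≤ k → H S h → ∀ y, ∃ a, H (insert y S) (Function.update h y a))
    (mono : ∀ S S' h, H S h → S' ⊆ S → H S' h)
    (clo : ∀ S (h : Fin (k + 1) → V → A), (∀ i, H S (h i)) → H S fun s => f fun i => h i s) :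
    ∀ (m : ℕ) (W : Finset V), W.card ≤ m → ∀ g, Loc H k W g → ∀ y, y ∉ W →
      ∃ a, Loc H k (insert y W) (Function.update g y a) := by
  intro m
  induction m with
  | zero =>
    intro W hW g hg y _
    have hW0 : W = ∅ := Finset.card_eq_zero.1 (Nat.le_zero.1 hW)
    obtain ⟨a, ha⟩ := ext W g (by simp [hW0]) (hg W subset_rfl (by simp [hW0])) y
    exact ⟨a, fun S hS _ => mono _ _ _ ha hS⟩
  | succ m ih =>
    intro W hW g hg y hy
    by_cases hk : W.card ≤ k
    · obtain ⟨a, ha⟩ := ext W g hk (hg W subset_rfl hk) y
      exact ⟨a, fun S hS _ => mono _ _ _ ha hS⟩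
    push Not at hk
    let e : Fin (k + 1) ↪ V :=
      ((Fin.castLEEmb hk).trans W.equivFin.symm.toEmbedding).trans (Function.Embedding.subtype _)
    have he : ∀ i, e i ∈ W := fun i => (W.equivFin.symm (Fin.castLEEmb hk i)).2
    have h1 : ∀ i, ∃ b, Loc H k (insert y (W.erase (e i))) (Function.update g y b) := by
      intro i
      refine ih (W.erase (e i)) ?_ g (fun S hS hc => hg S (hS.trans (Finset.erase_subset _ _)) hc) y
        (fun h => hy (Finset.mem_of_mem_erase h))
      rw [Finset.card_erase_of_mem (he i)]
      omega
    choose b hb using h1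
    refine ⟨f b, fun S hS hc => ?_⟩
    by_cases hyS : y ∈ S
    · have h2 : ∀ i, ∃ h : V → A, H S h ∧ h y = b i ∧ ∀ s, s ≠ y → s ≠ e i → h s = g s := by
        intro i
        by_cases hi : e i ∈ S
        · have hsub : S.erase (e i) ⊆ insert y (W.erase (e i)) := by
            intro s hs
            rw [Finset.mem_erase] at hs
            rcases Finset.mem_insert.1 (hS hs.2) with h3 | h3
            · exact Finset.mem_insert.2 (Or.inl h3)
            · exact Finset.mem_insert.2 (Or.inr (Finset.mem_erase.2 ⟨hs.1, h3⟩))
          have hcard : (S.erase (e i)).card ≤ k := (Finset.card_erase_le).trans hc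
          obtain ⟨a', ha'⟩ := ext _ _ hcard (hb i _ hsub hcard) (e i)
          rw [Finset.insert_erase hi] at ha'
          have hey : y ≠ e i := fun h => hy (h ▸ he i)
          refine ⟨_, ha', ?_, fun s hs1 hs2 => ?_⟩
          · rw [Function.update_of_ne hey, Function.update_self]
          · rw [Function.update_of_ne hs2, Function.update_of_ne hs1]
        · refine ⟨Function.update g y (b i), hb i S (fun s hs => ?_) hc, Function.update_self _ _ _,
            fun s hs1 _ => Function.update_of_ne hs1 _ _⟩
          rcases Finset.mem_insert.1 (hS hs) with h3 | h3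
          · exact Finset.mem_insert.2 (Or.inl h3)
          · exact Finset.mem_insert.2 (Or.inr (Finset.mem_erase.2 ⟨fun h => hi (h ▸ hs), h3⟩))
      choose h hh hy' hs using h2
      refine congr _ _ _ (clo S h hh) fun s _ => ?_
      by_cases hsy : s = y
      · subst hsy
        rw [Function.update_self]
        congr 1
        funext i
        exact hy' i
      · rw [Function.update_of_ne hsy]
        by_cases hse : ∃ j, s = e j
        · obtain ⟨j, rfl⟩ := hse
          have : (fun i => h i (e j)) = Function.update (fun _ => g (e j)) j (h j (e j)) := by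
            funext i
            by_cases hij : i = j
            · subst hij
              rw [Function.update_self]
            · rw [Function.update_of_ne hij]
              exact hs i _ hsy fun h => hij (e.injective h).symm
          rw [this]
          exact hf _ _ _
        · push Not at hse
          have : (fun i => h i s) = fun _ => g s := by
            funext i
            exact hs i _ hsy (hse i)
          rw [this]
          exact hf.idem (Nat.succ_pos k) _
    · refine congr _ _ _ (hg S (fun s hs => ?_) hc) fun s hs => ?_
      · rcases Finset.mem_insert.1 (hS hs) with h3 | h3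
        · exact absurd (h3 ▸ hs) hyS
        · exact h3
      · rw [Function.update_of_ne]
        rintro rfl
        exact hyS hs

/-- a locally consistent partial solution extends to all points -/
theorem nu_total [Fintype V] {H : Finset V → (V → A) → Prop} {k : ℕ}
    {f : (Fin (k + 1) → A) → A} (hf : IsNU (k + 1) f)
    (congr : ∀ S h h', H S h → (∀ s ∈ S, h s = h' s) → H S h')
    (ext : ∀ S h, S.card ≤ k → H S h → ∀ y, ∃ a, H (insert y S) (Function.update h y a))
    (mono : ∀ S S' h, H S h → S' ⊆ S → H S' h)
    (clo : ∀ S (h : Fin (k + 1) → V → A), (∀ i, H S (h i)) → H S fun s => f fun i => h i s)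
    (W : Finset V) (g : V → A) (hg : Loc H k W g) :
    ∃ g' : V → A, (∀ w ∈ W, g' w = g w) ∧ Loc H k Finset.univ g' := by
  have key : ∀ T : Finset V, ∃ g' : V → A, (∀ w ∈ W, g' w = g w) ∧ Loc H k (W ∪ T) g' := by
    intro T
    induction T using Finset.induction_on with
    | empty => exact ⟨g, fun _ _ => rfl, by rwa [Finset.union_empty]⟩
    | insert y T _ ih =>
      obtain ⟨g', h1, h2⟩ := ih
      by_cases hy : y ∈ W ∪ T
      · refine ⟨g', h1, ?_⟩
        rwa [Finset.union_insert, Finset.insert_eq_of_mem hy]
      · obtain ⟨a, ha⟩ := nu_step hf congr ext mono clo _ (W ∪ T) le_rfl g' h2 y hy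
        refine ⟨Function.update g' y a, fun w hw => ?_, ?_⟩
        · rw [Function.update_of_ne, h1 w hw]
          rintro rfl
          exact hy (Finset.mem_union_left _ hw)
        · rwa [Finset.union_insert]
  obtain ⟨g', h1, h2⟩ := key Finset.univ
  refine ⟨g', h1, ?_⟩
  rwa [Finset.union_eq_right.2 (Finset.subset_univ _)] at h2

end Pool.Agent.H89.SISFT
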